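import Mathlib

/-!
# The walk in the random unit-arrow drift field never homogenizes

Condition (ii) of homogenization (pointwise comparison of the quenched kernel with its average, in
probability) fails for every `d ≥ 1` and every `ε ∈ (0, 1/(2d))`.

Proof. The quenched kernel satisfies the one step relation
`p_ω(n+1, 0) = ∑_e p_ω(n, e) w(n_0(e), e)`, where `w(a, e) = 1 - (2d-1) ε` if `a = e` and `w(a, e) = ε`
otherwise. If (ii) held, then for large odd `n`, outside an event of small probability,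
`p_ω(n, e) ≈ m_1(n, e)` for all unit vectors `e` and `p_ω(n+1, 0) ≈ m_1(n+1, 0)`. With probability
`(2d)^(-2d)` all arrows at the neighbours `e` of the origin satisfy `n_0(e) = e`, and then
`m_1(n+1,0) ≈ (1 - (2d-1) ε) ∑_e m_1(n, e)`; with positive probability `n_0(e) ≠ e` for all `e`, and then
`m_1(n+1,0) ≈ ε ∑_e m_1(n, e)`. As `ε < 1 - (2d-1) ε` this is a contradiction.
-/

set_option autoImplicit false

namespace Pool.Agent.Results.MP_31ab2b_pr.NeverHomogenizes

open MeasureTheory ProbabilityTheory Filter Topology Finset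
open scoped ENNReal NNReal

/-- The unit vector coded by `(i, b)`: `e_i` for `b = true` and `-e_i` for `b = false`. -/
def unitVec {d : ℕ} (e : Fin d × Bool) : Fin d → ℤ := Pi.single e.1 (if e.2 then (1 : ℤ) else -1)

/-- An environment: a unit arrow `n_0(x, ω) = unitVec (ω x)` at every site `x`. -/
abbrev Env (d : ℕ) : Type := (Fin d → ℤ) → Fin d × Bool

/-- The law of the environment: the arrows are independent and uniform on the `2d` unit vectors. -/
noncomputable def envLaw (d : ℕ) [NeZero d] : Measure (Env d) :=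
  Measure.infinitePi fun _ => (PMF.uniformOfFintype (Fin d × Bool)).toMeasure

/-- The probability of the step from `x` to `x - unitVec e` when the arrow at `x` is `unitVec a`. -/
noncomputable def stepProb (d : ℕ) (ε : ℝ) (a e : Fin d × Bool) : ℝ :=
  if a = e then 1 - (2 * d - 1) * ε else ε

/-- The quenched kernel `p_ω(n, x) = P^0_ω(X_n = x)` of the chain started at `0` which moves from `x` to
`x - unitVec e` with probability `stepProb d ε (ω x) e` (Chapman-Kolmogorov recursion on the last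
step). -/
noncomputable def quenched {d : ℕ} (ε : ℝ) (ω : Env d) : ℕ → (Fin d → ℤ) → ℝ
  | 0, z => if z = 0 then 1 else 0
  | n + 1, z => ∑ e : Fin d × Bool, quenched ε ω n (z + unitVec e) * stepProb d ε (ω (z + unitVec e)) e

/-- The averaged kernel `m_1(n, x)`. -/
noncomputable def averaged (d : ℕ) [NeZero d] (ε : ℝ) (n : ℕ) (x : Fin d → ℤ) : ℝ :=
  ∫ ω, quenched ε ω n x ∂(envLaw d)

/-- (i): for some `σ² > 0` the averaged law of `X_n / √n` converges weakly to the centred Gaussian law
with covariance `σ² I_d`. -/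
def AveragedCLT (d : ℕ) [NeZero d] (ε : ℝ) : Prop :=
  ∃ v : ℝ≥0, 0 < v ∧ ∀ f : (Fin d → ℝ) → ℝ, Continuous f → (∃ M, ∀ y, |f y| ≤ M) →
    Tendsto (fun n : ℕ => ∑' x : Fin d → ℤ, averaged d ε n x * f fun i => (x i : ℝ) / √n) atTop
      (𝓝 (∫ y, f y ∂(Measure.pi fun _ => gaussianReal 0 v)))

/-- (ii): for all `C, δ > 0` the supremum, over the `x` with `|x| ≤ C √n` and `m_1(n, x) > 0`, of the
probability that `|p_ω(n, x) / m_1(n, x) - 1| > δ` tends to `0`. -/
def KernelSelfAverages (d : ℕ) [NeZero d] (ε : ℝ) : Prop :=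
  ∀ C δ : ℝ, 0 < C → 0 < δ →
    Tendsto (fun n : ℕ => ⨆ x ∈ {x : Fin d → ℤ | √(∑ i, (x i : ℝ) ^ 2) ≤ C * √n ∧
        0 < averaged d ε n x},
      envLaw d {ω | δ < |quenched ε ω n x / averaged d ε n x - 1|}) atTop (𝓝 0)

/-- The model homogenizes: (i) and (ii). -/
def Homogenizes (d : ℕ) [NeZero d] (ε : ℝ) : Prop := AveragedCLT d ε ∧ KernelSelfAverages d ε

section proof

variable {d : ℕ} [NeZero d] {ε : ℝ}

instance : IsProbabilityMeasure (envLaw d) := by
  unfold envLaw
  infer_instance

lemma stepProb_pos (_hε : 0 < ε) (hε' : ε < 1 / (2 * d)) (a e : Fin d × Bool) :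
    ε ≤ stepProb d ε a e := by
  unfold stepProb
  have hd : (0 : ℝ) < d := by exact_mod_cast Nat.pos_of_ne_zero (NeZero.ne d)
  rw [lt_div_iff₀ (by positivity)] at hε'
  split_ifs
  · linarith
  · exact le_rfl

lemma quenched_nonneg (hε : 0 < ε) (hε' : ε < 1 / (2 * d)) (ω : Env d) (n : ℕ)
    (z : Fin d → ℤ) : 0 ≤ quenched ε ω n z := by
  induction n generalizing z with
  | zero =>
    simp only [quenched]
    split_ifs <;> norm_num
  | succ n ih =>
    simp only [quenched]
    exact Finset.sum_nonneg fun e _ =>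
      mul_nonneg (ih _) (hε.le.trans (stepProb_pos hε hε' _ _))

omit [NeZero d] in
lemma quenched_succ (ω : Env d) (n : ℕ) (z : Fin d → ℤ) : quenched ε ω (n + 1) z =
    ∑ e : Fin d × Bool, quenched ε ω n (z + unitVec e) * stepProb d ε (ω (z + unitVec e)) e := rfl

omit [NeZero d] in
lemma measurable_quenched (n : ℕ) (z : Fin d → ℤ) :
    Measurable fun ω : Env d => quenched ε ω n z := by
  induction n generalizing z with
  | zero => exact measurable_const
  | succ n ih =>
    simp only [quenched]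
    refine Finset.measurable_sum _ fun e _ => (ih _).mul ?_
    exact (Measurable.of_discrete (f := fun a : Fin d × Bool => stepProb d ε a e)).comp
      (measurable_pi_apply _)

omit [NeZero d] in
lemma quenched_bound (n : ℕ) : ∃ M, ∀ (z : Fin d → ℤ) (ω : Env d), |quenched ε ω n z| ≤ M := by
  induction n with
  | zero =>
    refine ⟨1, fun z ω => ?_⟩
    simp only [quenched]
    split_ifs <;> simp
  | succ n ih =>
    obtain ⟨M, hM⟩ := ih
    refine ⟨∑ _e : Fin d × Bool, M * (|1 - (2 * d - 1) * ε| + |ε|), fun z ω => ?_⟩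
    simp only [quenched]
    refine (Finset.abs_sum_le_sum_abs _ _).trans (Finset.sum_le_sum fun e _ => ?_)
    rw [abs_mul]
    refine mul_le_mul (hM _ _) ?_ (abs_nonneg _) ((abs_nonneg _).trans (hM 0 ω))
    unfold stepProb
    split_ifs
    · linarith [abs_nonneg ε]
    · linarith [abs_nonneg (1 - (2 * (d : ℝ) - 1) * ε)]

lemma integrable_quenched (n : ℕ) (z : Fin d → ℤ) :
    Integrable (fun ω : Env d => quenched ε ω n z) (envLaw d) := by
  obtain ⟨M, hM⟩ := quenched_bound (d := d) (ε := ε) n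
  exact Integrable.of_bound (C := M) (measurable_quenched n z).aestronglyMeasurable
    (ae_of_all _ fun ω => hM z ω)

lemma quenched_even (hε : 0 < ε) (hε' : ε < 1 / (2 * d)) (ω : Env d) (k : ℕ) :
    ε ^ (2 * k) ≤ quenched ε ω (2 * k) 0 := by
  induction k with
  | zero => simp [quenched]
  | succ k ih =>
    set e : Fin d × Bool := (⟨0, Nat.pos_of_ne_zero (NeZero.ne d)⟩, true) with he
    set e' : Fin d × Bool := (⟨0, Nat.pos_of_ne_zero (NeZero.ne d)⟩, false) with he'
    have hee : unitVec e + unitVec e' = 0 := by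
      unfold unitVec
      rw [← Pi.single_add]
      simp [he, he']
    have h1 : ε * quenched ε ω (2 * k) 0 ≤ quenched ε ω (2 * k + 1) (unitVec e) := by
      rw [quenched_succ]
      have h2 := Finset.single_le_sum (s := Finset.univ)
        (f := fun a : Fin d × Bool => quenched ε ω (2 * k) (unitVec e + unitVec a) *
          stepProb d ε (ω (unitVec e + unitVec a)) a)
        (fun a _ => mul_nonneg (quenched_nonneg hε hε' _ _ _)
          (hε.le.trans (stepProb_pos hε hε' _ _))) (Finset.mem_univ e')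
      refine le_trans ?_ h2
      rw [hee, mul_comm]
      exact mul_le_mul_of_nonneg_left (stepProb_pos hε hε' _ _) (quenched_nonneg hε hε' _ _ _)
    have h3 : ε * quenched ε ω (2 * k + 1) (unitVec e) ≤ quenched ε ω (2 * (k + 1)) 0 := by
      rw [show 2 * (k + 1) = (2 * k + 1) + 1 by ring, quenched_succ ω (2 * k + 1)]
      have h2 := Finset.single_le_sum (s := Finset.univ)
        (f := fun a : Fin d × Bool => quenched ε ω (2 * k + 1) (0 + unitVec a) *
          stepProb d ε (ω (0 + unitVec a)) a)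
        (fun a _ => mul_nonneg (quenched_nonneg hε hε' _ _ _)
          (hε.le.trans (stepProb_pos hε hε' _ _))) (Finset.mem_univ e)
      refine le_trans ?_ h2
      simp only [zero_add]
      rw [mul_comm]
      exact mul_le_mul_of_nonneg_left (stepProb_pos hε hε' _ _) (quenched_nonneg hε hε' _ _ _)
    calc ε ^ (2 * (k + 1)) = ε * (ε * ε ^ (2 * k)) := by ring
      _ ≤ ε * (ε * quenched ε ω (2 * k) 0) := by gcongr
      _ ≤ ε * quenched ε ω (2 * k + 1) (unitVec e) := by gcongr
      _ ≤ _ := h3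

/-- the opposite unit vector -/
def opp (e : Fin d × Bool) : Fin d × Bool := (e.1, !e.2)

omit [NeZero d] in
lemma add_opp (e : Fin d × Bool) : unitVec e + unitVec (opp e) = 0 := by
  unfold unitVec opp
  rw [← Pi.single_add]
  rcases e with ⟨i, b⟩
  cases b <;> simp

lemma quenched_odd (hε : 0 < ε) (hε' : ε < 1 / (2 * d)) (ω : Env d) (k : ℕ)
    (e : Fin d × Bool) : ε ^ (2 * k + 1) ≤ quenched ε ω (2 * k + 1) (unitVec e) := by
  have h1 : ε * quenched ε ω (2 * k) 0 ≤ quenched ε ω (2 * k + 1) (unitVec e) := by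
    rw [quenched_succ]
    have h2 := Finset.single_le_sum (s := Finset.univ)
      (f := fun a : Fin d × Bool => quenched ε ω (2 * k) (unitVec e + unitVec a) *
        stepProb d ε (ω (unitVec e + unitVec a)) a)
      (fun a _ => mul_nonneg (quenched_nonneg hε hε' _ _ _)
        (hε.le.trans (stepProb_pos hε hε' _ _))) (Finset.mem_univ (opp e))
    refine le_trans ?_ h2
    rw [add_opp, mul_comm]
    exact mul_le_mul_of_nonneg_left (stepProb_pos hε hε' _ _) (quenched_nonneg hε hε' _ _ _)
  calc ε ^ (2 * k + 1) = ε * ε ^ (2 * k) := by ring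
    _ ≤ ε * quenched ε ω (2 * k) 0 := by
        gcongr
        exact quenched_even hε hε' ω k
    _ ≤ _ := h1

lemma averaged_pos {n : ℕ} {x : Fin d → ℤ} {c : ℝ} (hc : 0 < c)
    (h : ∀ ω : Env d, c ≤ quenched ε ω n x) : 0 < averaged d ε n x := by
  have h1 : ∫ _ω : Env d, c ∂(envLaw d) ≤ averaged d ε n x :=
    integral_mono (integrable_const c) (integrable_quenched n x) h
  simp only [integral_const, probReal_univ, one_smul] at h1
  linarith

omit [NeZero d] in
lemma norm_unitVec (e : Fin d × Bool) : √(∑ i, ((unitVec e i : ℤ) : ℝ) ^ 2) = 1 := by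
  have h1 : ∑ i, ((unitVec e i : ℤ) : ℝ) ^ 2 = 1 := by
    rw [Finset.sum_eq_single e.1]
    · unfold unitVec
      rcases e with ⟨i, b⟩
      cases b <;> simp
    · intro i _ hi
      unfold unitVec
      rw [Pi.single_eq_of_ne hi]
      simp
    · intro h
      exact absurd (Finset.mem_univ _) h
  rw [h1, Real.sqrt_one]

omit [NeZero d] in
lemma unitVec_injective : Function.Injective (unitVec : Fin d × Bool → Fin d → ℤ) := by
  rintro ⟨i, b⟩ ⟨j, c⟩ h
  have hi := congrFun h i
  unfold unitVec at hi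
  rw [Pi.single_eq_same] at hi
  by_cases hij : i = j
  · subst hij
    rw [Pi.single_eq_same] at hi
    cases b <;> cases c <;> simp_all
  · rw [Pi.single_eq_of_ne hij] at hi
    cases b <;> simp at hi

/-- the probability that the arrows at the neighbours of the origin lie in prescribed sets -/
lemma law_neighbours_pos (A : Fin d × Bool → Set (Fin d × Bool)) (hA : ∀ e, (A e).Nonempty) :
    0 < envLaw d {ω | ∀ e, ω (unitVec e) ∈ A e} := by
  classical
  have h1 : {ω : Env d | ∀ e, ω (unitVec e) ∈ A e}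
      = Set.pi (↑((Finset.univ : Finset (Fin d × Bool)).image unitVec) : Set (Fin d → ℤ))
        (fun x => {a | ∀ e, unitVec e = x → a ∈ A e}) := by
    ext ω
    simp only [Set.mem_ofPred_eq, Set.mem_pi, Finset.coe_image, Finset.coe_univ, Set.image_univ,
      Set.mem_range, forall_exists_index, forall_apply_eq_imp_iff]
    constructor
    · intro h e e' he
      rw [unitVec_injective he]
      exact h e
    · intro h e
      exact h e e rfl
  rw [h1]
  unfold envLaw
  rw [Measure.infinitePi_pi _ (fun _ _ => MeasurableSet.of_discrete)]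
  rw [pos_iff_ne_zero, Finset.prod_ne_zero_iff]
  intro x hx
  obtain ⟨e, _, rfl⟩ := Finset.mem_image.1 hx
  obtain ⟨a, ha⟩ := hA e
  have h2 : ({a} : Set (Fin d × Bool)) ⊆ {a | ∀ e', unitVec e' = unitVec e → a ∈ A e'} := by
    intro b hb e' he'
    rw [Set.mem_singleton_iff.1 hb, unitVec_injective he']
    exact ha
  have h3 : 0 < (PMF.uniformOfFintype (Fin d × Bool)).toMeasure {a} := by
    rw [PMF.toMeasure_apply_singleton _ _ (measurableSet_singleton a)]
    rw [PMF.uniformOfFintype_apply]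
    exact ENNReal.inv_pos.2 (ENNReal.natCast_ne_top _)
  exact (h3.trans_le (measure_mono h2)).ne'

end proof

/-- For every `d ≥ 1` and every `ε ∈ (0, 1/(2d))` condition (ii) fails, so that the model does not
homogenize. -/
theorem result (d : ℕ) [NeZero d] (ε : ℝ) (hε : 0 < ε) (hε' : ε < 1 / (2 * d)) :
    ¬ KernelSelfAverages d ε ∧ ¬ Homogenizes d ε := by
  classical
  suffices hmain : ¬ KernelSelfAverages d ε from ⟨hmain, fun h => hmain h.2⟩
  intro hii
  have hd : (0 : ℝ) < d := by exact_mod_cast Nat.pos_of_ne_zero (NeZero.ne d)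
  set p : ℝ := 1 - (2 * d - 1) * ε with hp
  have hpε : ε < p := by
    rw [lt_div_iff₀ (by positivity)] at hε'
    rw [hp]
    linarith
  -- choice of δ
  obtain ⟨δ, hδ0, hδ1, hδ⟩ : ∃ δ : ℝ, 0 < δ ∧ δ < 1 ∧
      ε * (1 + δ) * (1 + δ) < p * (1 - δ) * (1 - δ) := by
    have hcont : Tendsto (fun δ : ℝ => p * (1 - δ) * (1 - δ) - ε * (1 + δ) * (1 + δ)) (𝓝 0)
        (𝓝 (p * (1 - 0) * (1 - 0) - ε * (1 + 0) * (1 + 0))) :=
      Continuous.tendsto (by fun_prop) 0
    have h1 : (0 : ℝ) < p * (1 - 0) * (1 - 0) - ε * (1 + 0) * (1 + 0) := by linarith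
    have h2 := (tendsto_order.1 hcont).1 0 h1
    obtain ⟨r, hr, hr'⟩ := Metric.eventually_nhds_iff.1 h2
    refine ⟨min (r / 2) (1 / 2), by positivity, ?_, ?_⟩
    · exact (min_le_right _ _).trans_lt (by norm_num)
    · have h3 : dist (min (r / 2) (1 / 2)) 0 < r := by
        rw [Real.dist_eq, sub_zero, abs_of_pos (by positivity)]
        exact (min_le_left _ _).trans_lt (by linarith)
      have := hr' h3
      linarith
  -- the two events
  set U1 : Set (Env d) := {ω | ∀ e, ω (unitVec e) ∈ ({e} : Set (Fin d × Bool))} with hU1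
  set U2 : Set (Env d) := {ω | ∀ e, ω (unitVec e) ∈ ({e}ᶜ : Set (Fin d × Bool))} with hU2
  have hU1pos : 0 < envLaw d U1 := law_neighbours_pos _ fun e => ⟨e, rfl⟩
  have hU2pos : 0 < envLaw d U2 := by
    refine law_neighbours_pos _ fun e => ⟨opp e, ?_⟩
    rw [Set.mem_compl_iff, Set.mem_singleton_iff]
    intro h
    have := congrArg Prod.snd h
    simp [opp] at this
  set η : ℝ≥0∞ := min (envLaw d U1) (envLaw d U2) with hη
  have hηpos : 0 < η := lt_min hU1pos hU2pos
  set K : ℝ≥0∞ := ((2 * d + 1 : ℕ) : ℝ≥0∞) with hK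
  have hKpos : K ≠ 0 := by simp [hK]
  have hKtop : K ≠ ⊤ := ENNReal.natCast_ne_top _
  have hηK : 0 < η / (2 * K) :=
    ENNReal.div_pos hηpos.ne' (ENNReal.mul_ne_top (by simp) hKtop)
  have hev := (ENNReal.tendsto_nhds_zero.1 (hii 1 δ one_pos hδ0)) (η / (2 * K)) hηK
  obtain ⟨N, hN⟩ := eventually_atTop.1 hev
  set n : ℕ := 2 * N + 1 with hn
  have hb1 := hN n (by omega)
  have hb2 := hN (n + 1) (by omega)
  -- positivity of the averaged kernels
  have hposE : ∀ e : Fin d × Bool, 0 < averaged d ε n (unitVec e) := fun e =>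
    averaged_pos (c := ε ^ (2 * N + 1)) (by positivity) fun ω => quenched_odd hε hε' ω N e
  have hpos0 : 0 < averaged d ε (n + 1) 0 :=
    averaged_pos (c := ε ^ (2 * (N + 1))) (by positivity) fun ω => quenched_even hε hε' ω (N + 1)
  -- bad events
  set Bad : Set (Env d) := (⋃ e : Fin d × Bool,
      {ω | δ < |quenched ε ω n (unitVec e) / averaged d ε n (unitVec e) - 1|}) ∪
      {ω | δ < |quenched ε ω (n + 1) 0 / averaged d ε (n + 1) 0 - 1|} with hBad
  have hBade : ∀ e : Fin d × Bool, envLaw d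
      {ω | δ < |quenched ε ω n (unitVec e) / averaged d ε n (unitVec e) - 1|} ≤ η / (2 * K) := by
    intro e
    refine le_trans ?_ hb1
    refine le_iSup₂ (f := fun (x : Fin d → ℤ) (_ : x ∈ {x : Fin d → ℤ |
      √(∑ i, (x i : ℝ) ^ 2) ≤ 1 * √n ∧ 0 < averaged d ε n x}) =>
      envLaw d {ω | δ < |quenched ε ω n x / averaged d ε n x - 1|}) (unitVec e) ?_
    refine ⟨?_, hposE e⟩
    rw [norm_unitVec, one_mul]
    rw [Real.one_le_sqrt]
    exact_mod_cast (by omega : 1 ≤ n)
  have hBad0 : envLaw d {ω | δ < |quenched ε ω (n + 1) 0 / averaged d ε (n + 1) 0 - 1|}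
      ≤ η / (2 * K) := by
    refine le_trans ?_ hb2
    refine le_iSup₂ (f := fun (x : Fin d → ℤ) (_ : x ∈ {x : Fin d → ℤ |
      √(∑ i, (x i : ℝ) ^ 2) ≤ 1 * √((n + 1 : ℕ) : ℝ) ∧ 0 < averaged d ε (n + 1) x}) =>
      envLaw d {ω | δ < |quenched ε ω (n + 1) x / averaged d ε (n + 1) x - 1|}) 0 ?_
    refine ⟨?_, hpos0⟩
    simp
  have hBadle : envLaw d Bad ≤ η / 2 := by
    calc envLaw d Bad ≤ envLaw d (⋃ e : Fin d × Bool,
          {ω | δ < |quenched ε ω n (unitVec e) / averaged d ε n (unitVec e) - 1|})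
          + envLaw d {ω | δ < |quenched ε ω (n + 1) 0 / averaged d ε (n + 1) 0 - 1|} :=
          measure_union_le _ _
      _ ≤ (∑ _e : Fin d × Bool, η / (2 * K)) + η / (2 * K) := by
          refine add_le_add ((measure_iUnion_fintype_le _ _).trans ?_) hBad0
          exact Finset.sum_le_sum fun e _ => hBade e
      _ = K * (η / (2 * K)) := by
          rw [Finset.sum_const, Finset.card_univ, Fintype.card_prod, Fintype.card_fin,
            Fintype.card_bool, nsmul_eq_mul, hK]
          push_cast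
          ring
      _ = η / 2 := by
          rw [ENNReal.div_eq_inv_mul, ENNReal.div_eq_inv_mul,
            ENNReal.mul_inv (Or.inl (by norm_num)) (Or.inl (by norm_num))]
          rw [show K * (2⁻¹ * K⁻¹ * η) = (K * K⁻¹) * (2⁻¹ * η) by ring,
            ENNReal.mul_inv_cancel hKpos hKtop, one_mul]
  have hηtop : η ≠ ⊤ := (lt_of_le_of_lt (min_le_left _ _) (measure_lt_top _ _)).ne
  have hlt : η / 2 < η := ENNReal.half_lt_self hηpos.ne' hηtop
  obtain ⟨ω1, hω1, hω1'⟩ : ∃ ω, ω ∈ U1 ∧ ω ∉ Bad := by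
    by_contra hcon
    push Not at hcon
    have : envLaw d U1 ≤ envLaw d Bad := measure_mono hcon
    exact absurd (this.trans hBadle) (not_le.2 (hlt.trans_le (min_le_left _ _)))
  obtain ⟨ω2, hω2, hω2'⟩ : ∃ ω, ω ∈ U2 ∧ ω ∉ Bad := by
    by_contra hcon
    push Not at hcon
    have : envLaw d U2 ≤ envLaw d Bad := measure_mono hcon
    exact absurd (this.trans hBadle) (not_le.2 (hlt.trans_le (min_le_right _ _)))
  set s : ℝ := ∑ e : Fin d × Bool, averaged d ε n (unitVec e) with hs
  have hspos : 0 < s := Finset.sum_pos (fun e _ => hposE e)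
    ⟨(⟨0, Nat.pos_of_ne_zero (NeZero.ne d)⟩, true), Finset.mem_univ _⟩
  have hgood : ∀ ω : Env d, ω ∉ Bad →
      (∀ e : Fin d × Bool, (1 - δ) * averaged d ε n (unitVec e) ≤ quenched ε ω n (unitVec e) ∧
        quenched ε ω n (unitVec e) ≤ (1 + δ) * averaged d ε n (unitVec e)) ∧
      (1 - δ) * averaged d ε (n + 1) 0 ≤ quenched ε ω (n + 1) 0 ∧
        quenched ε ω (n + 1) 0 ≤ (1 + δ) * averaged d ε (n + 1) 0 := by
    intro ω hω
    rw [hBad, Set.mem_union, not_or] at hω
    have key : ∀ (q m : ℝ), 0 < m → ¬ δ < |q / m - 1| → (1 - δ) * m ≤ q ∧ q ≤ (1 + δ) * m := by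
      intro q m hm h
      rw [not_lt, abs_le] at h
      have h1 : (1 - δ) ≤ q / m := by linarith [h.1]
      have h2 : q / m ≤ 1 + δ := by linarith [h.2]
      rw [le_div_iff₀ hm] at h1
      rw [div_le_iff₀ hm] at h2
      exact ⟨h1, h2⟩
    refine ⟨fun e => key _ _ (hposE e) ?_, key _ _ hpos0 hω.2⟩
    intro h
    exact hω.1 (Set.mem_iUnion.2 ⟨e, h⟩)
  have hstep : ∀ ω : Env d, quenched ε ω (n + 1) 0
      = ∑ e : Fin d × Bool, quenched ε ω n (unitVec e) * stepProb d ε (ω (unitVec e)) e := by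
    intro ω
    rw [quenched]
    simp only [zero_add]
  have h1 : p * ((1 - δ) * s) ≤ (1 + δ) * averaged d ε (n + 1) 0 := by
    obtain ⟨hA, -, hB⟩ := hgood ω1 hω1'
    refine le_trans ?_ hB
    rw [hstep, hs, Finset.mul_sum, Finset.mul_sum]
    refine Finset.sum_le_sum fun e _ => ?_
    have he : ω1 (unitVec e) = e := hω1 e
    rw [he]
    unfold stepProb
    rw [if_pos rfl, ← hp, mul_comm p]
    exact mul_le_mul_of_nonneg_right (hA e).1 (hε.trans hpε).le
  have h2 : (1 - δ) * averaged d ε (n + 1) 0 ≤ ε * ((1 + δ) * s) := by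
    obtain ⟨hA, hB, -⟩ := hgood ω2 hω2'
    refine hB.trans ?_
    rw [hstep, hs, Finset.mul_sum, Finset.mul_sum]
    refine Finset.sum_le_sum fun e _ => ?_
    have he : ω2 (unitVec e) ≠ e := hω2 e
    unfold stepProb
    rw [if_neg he, mul_comm ε]
    exact mul_le_mul_of_nonneg_right (hA e).2 hε.le
  have h3 : p * (1 - δ) * (1 - δ) * s ≤ ε * (1 + δ) * (1 + δ) * s := by
    have h4 := mul_le_mul_of_nonneg_left h1 (by linarith : (0:ℝ) ≤ 1 - δ)
    have h5 := mul_le_mul_of_nonneg_left h2 (by linarith : (0:ℝ) ≤ 1 + δ)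
    nlinarith
  have h4 := mul_lt_mul_of_pos_right hδ hspos
  linarith

end Pool.Agent.Results.MP_31ab2b_pr.NeverHomogenizes
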